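import Pool.Agent.K3h46.HP.Stm4

/-! Project HP2 (helper46), brick TRANS (helper58): transposition reverses the composition. -/

set_option autoImplicit false

namespace Pool.Agent.K3h58.HP

open Pool.Agent.K3h46.HP

theorem t_Trans : StmTrans := by
  intro X a b
  unfold Powers.comp
  rw [← X.base_change, map_mul, X.pull_comp, X.pull_comp, X.pull_comp, X.pull_comp, mul_comm]
  congr 1
  congr 1
  · congr 1
    congr 1
    funext i
    fin_cases i <;> rfl
  · congr 1
    congr 1
    funext i
    fin_cases i <;> rfl

end Pool.Agent.K3h58.HP
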